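import Pool.Agent.Helper22.MI.Fin
import Pool.Agent.Helper13.MI.STEP
import Pool.Agent.Helper41.MI.AUE
import Pool.Agent.Helper41.MI.DEN
import Pool.Agent.Helper5.MI.ALT
import Pool.Agent.Helper5.MI.CVX
import Pool.Agent.Helper5.MI.EQS
import Pool.Agent.Helper5.MI.LEN
import Pool.Agent.Helper5.MI.PIE
import Pool.Agent.Helper5.MI.RED
import Pool.Agent.Helper59.MI.REC
import Pool.Agent.Helper71.MI.TOR
import Pool.Agent.Helper77.MI.UNL
import Pool.Agent.Helper81.MI.UNS

set_option autoImplicit false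

/-!
# Mixed-integer formulations: assembly
-/

namespace Pool.Agent.Helper22.MI

theorem fin_all : ST_FIN :=
  st_FIN (st_RED (st_REC (st_STEP st_AUE (st_ALT st_TOR st_DEN))) st_PIE (st_CVX st_EQS)
    st_UNL st_UNS st_LEN)

end Pool.Agent.Helper22.MI
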