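import Pool.Agent.Helper22.MI.Stmts1
import Pool.Agent.Helper68.LP.LPLowerBoundResult
import Pool.Agent.Helper68.SDX.Fin

set_option autoImplicit false

/-!
# Mixed-integer formulations: the final theorem
-/

namespace Pool.Agent.Helper22.MI

open Finset Pool.Agent.Helper68.SDP Pool.Agent.Helper68.LP

/-- the number of pieces is at most a power of `n` -/
theorem fin_count {n k C0 N : ℕ} (hC0 : 1 ≤ C0) (hk : k ≤ n) (hn : 513 * C0 ^ 2 ≤ n)
    (hN : N ≤ (2 * k * (8 * C0 ^ 2 * n ^ 10 * (k + 1) ^ 5) + 1) ^ k) : N ≤ n ^ (17 * k) := by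
  refine hN.trans ?_
  rw [pow_mul]
  apply Nat.pow_le_pow_left
  have h1 : (k + 1) ^ 5 ≤ 32 * n ^ 5 := by
    have hn1 : 1 ≤ n := by
      have : 1 ≤ C0 ^ 2 := Nat.one_le_pow _ _ hC0
      omega
    calc (k + 1) ^ 5 ≤ (2 * n) ^ 5 := Nat.pow_le_pow_left (by omega) 5
      _ = 32 * n ^ 5 := by ring
  calc 2 * k * (8 * C0 ^ 2 * n ^ 10 * (k + 1) ^ 5) + 1
      ≤ 2 * n * (8 * C0 ^ 2 * n ^ 10 * (32 * n ^ 5)) + 1 := by gcongr
    _ = 512 * C0 ^ 2 * n ^ 16 + 1 := by ring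
    _ ≤ 512 * C0 ^ 2 * n ^ 16 + C0 ^ 2 * n ^ 16 := by
        have h2 : 1 ≤ C0 ^ 2 * n ^ 16 := by
          apply Nat.mul_pos (by positivity)
          apply Nat.pow_pos
          have : 1 ≤ C0 ^ 2 := Nat.one_le_pow _ _ hC0
          omega
        omega
    _ = 513 * C0 ^ 2 * n ^ 16 := by ring
    _ ≤ n * n ^ 16 := Nat.mul_le_mul_right _ hn
    _ = n ^ 17 := by ring

/-- the trivial case of many integer variables -/
theorem fin_trivial {n k r C : ℕ} {a : ℝ} (ha : a ≤ n) (hn : 2 ≤ n) (hk : n < k) (hC : 1 ≤ C) :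
    (2 : ℝ) ^ a ≤ (r + 1) * (n : ℝ) ^ (C * k) := by
  have hn' : (2 : ℝ) ≤ n := by exact_mod_cast hn
  calc (2 : ℝ) ^ a ≤ (2 : ℝ) ^ (n : ℝ) := Real.rpow_le_rpow_of_exponent_le (by norm_num) ha
    _ = (2 : ℝ) ^ n := Real.rpow_natCast _ _
    _ ≤ (2 : ℝ) ^ (C * k) := pow_le_pow_right₀ (by norm_num) (by nlinarith)
    _ ≤ (n : ℝ) ^ (C * k) := pow_le_pow_left₀ (by norm_num) hn' _
    _ ≤ (r + 1) * (n : ℝ) ^ (C * k) := by
        have : 0 ≤ (n : ℝ) ^ (C * k) := by positivity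
        have hr : (0 : ℝ) ≤ r := by positivity
        nlinarith

theorem fin_main {n k r N C : ℕ} {a b : ℝ} (hab : a ≤ b) (hn : 1 ≤ n)
    (h : (2 : ℝ) ^ b ≤ ((N * (r + 1) : ℕ) : ℝ)) (hN : N ≤ n ^ (17 * k)) (hC : 17 ≤ C) :
    (2 : ℝ) ^ a ≤ (r + 1) * (n : ℝ) ^ (C * k) := by
  have hn' : (1 : ℝ) ≤ n := by exact_mod_cast hn
  calc (2 : ℝ) ^ a ≤ (2 : ℝ) ^ b := Real.rpow_le_rpow_of_exponent_le (by norm_num) hab
    _ ≤ ((N * (r + 1) : ℕ) : ℝ) := h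
    _ = (N : ℝ) * (r + 1) := by push_cast; ring
    _ ≤ (n : ℝ) ^ (17 * k) * (r + 1) := by
        apply mul_le_mul_of_nonneg_right _ (by positivity)
        exact_mod_cast hN
    _ ≤ (n : ℝ) ^ (C * k) * (r + 1) := by
        apply mul_le_mul_of_nonneg_right _ (by positivity)
        exact pow_le_pow_right₀ hn' (Nat.mul_le_mul_right _ hC)
    _ = (r + 1) * (n : ℝ) ^ (C * k) := by ring

theorem st_FIN (h1 : ST_RED) : ST_FIN := by
  obtain ⟨c1, C1, n1, hc1, hLP⟩ := Pool.Agent.Helper68.LP.LPLowerBoundResult.result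
  obtain ⟨c2, n2, hc2, hSDP⟩ := Pool.Agent.Helper68.SDX.sdp_exp
  obtain ⟨C0, hC0⟩ : ∃ C0 : ℕ, C0 = C1 + 1 := ⟨_, rfl⟩
  have hC01 : 1 ≤ C0 := by omega
  refine ⟨min (min c1 c2) 1, max 17 (4 * C0), max (max n1 n2) (513 * C0 ^ 2), by positivity, ?_⟩
  intro n r k R δ hn hδ hR d Q p p₀ hS
  have hn1 : n1 ≤ n := by omega
  have hn2 : n2 ≤ n := by omega
  have hn3 : 513 * C0 ^ 2 ≤ n := by omega
  have hC02 : 1 ≤ C0 ^ 2 := Nat.one_le_pow _ _ hC01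
  have hn513 : 513 ≤ n := by omega
  have hn' : (513 : ℝ) ≤ n := by exact_mod_cast hn513
  have hn0 : (0 : ℝ) < n := by linarith
  have hC0' : (1 : ℝ) ≤ C0 := by exact_mod_cast hC01
  have hC0p : (0 : ℝ) < C0 := by linarith
  have hsq : √(n : ℝ) ≤ n := by
    rw [Real.sqrt_le_left (by linarith)]
    nlinarith
  have h11 : (n : ℝ) ^ (2 / 11 : ℝ) ≤ n := by
    calc (n : ℝ) ^ (2 / 11 : ℝ) ≤ (n : ℝ) ^ (1 : ℝ) :=
          Real.rpow_le_rpow_of_exponent_le (by linarith) (by norm_num)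
      _ = n := Real.rpow_one _
  set c := min (min c1 c2) 1 with hc
  have hcc1 : c ≤ c1 := (min_le_left _ _).trans (min_le_left _ _)
  have hcc2 : c ≤ c2 := (min_le_left _ _).trans (min_le_right _ _)
  have hc1' : c ≤ 1 := min_le_right _ _
  have hc0 : 0 < c := by positivity
  have hsq0 : 0 ≤ √(n : ℝ) := Real.sqrt_nonneg _
  have h110 : 0 ≤ (n : ℝ) ^ (2 / 11 : ℝ) := by positivity
  rcases lt_or_ge n k with hk | hk
  · refine ⟨fun _ => fin_trivial ?_ (by omega) hk (by omega),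
      fun _ => fin_trivial ?_ (by omega) hk (by omega)⟩
    · nlinarith
    · nlinarith
  -- the parameters
  set ε : ℝ := 1 / (8 * C0 * (n : ℝ) ^ 5) with hε
  have hn5 : (1 : ℝ) ≤ (n : ℝ) ^ 5 := one_le_pow₀ (by linarith)
  have hε0 : 0 < ε := by positivity
  have hε4 : ε ≤ 1 / 4 := by
    rw [hε]
    apply one_div_le_one_div_of_le (by norm_num)
    nlinarith
  have hm : ((k : ℝ) + 1) ^ 5 ≤ 8 * ε ^ 2 * ((8 * C0 ^ 2 * n ^ 10 * (k + 1) ^ 5 : ℕ) : ℝ) := by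
    apply le_of_eq
    rw [hε]
    push_cast
    field_simp
  obtain ⟨N, hN, hL, hD⟩ := h1 n R r k d _ δ ε Q p p₀ hδ hε0 hε4 hm hS
  have hNn := fin_count hC01 hk hn3 hN
  -- the error
  set δ' : ℝ := 2 * δ + 4 * ε * n * R with hδ'
  have hR0 : (0 : ℝ) ≤ R := by positivity
  have hδ'0 : 0 ≤ δ' := by positivity
  have hn4 : (0 : ℝ) < (n : ℝ) ^ 4 := by positivity
  have hRb : (4 * C0 : ℝ) * ((n + δ) * (n : ℝ) ^ 4) ≤ R := by
    refine le_trans ?_ hR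
    apply mul_le_mul_of_nonneg_right _ (by positivity)
    have : (4 * C0 : ℕ) ≤ max 17 (4 * C0) := le_max_right _ _
    exact_mod_cast this
  have hRc : (C0 : ℝ) * ((n + δ') * (n : ℝ) ^ 4) ≤ R := by
    have e1 : (C0 : ℝ) * (4 * ε * n * R * (n : ℝ) ^ 4) = R / 2 := by
      rw [hε]
      field_simp
      ring
    have e2 : (C0 : ℝ) * ((n + δ') * (n : ℝ) ^ 4)
        = (C0 : ℝ) * ((n + 2 * δ) * (n : ℝ) ^ 4) + (C0 : ℝ) * (4 * ε * n * R * (n : ℝ) ^ 4) := by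
      rw [hδ']; ring
    have e3 : (C0 : ℝ) * ((n + 2 * δ) * (n : ℝ) ^ 4)
        ≤ (C0 : ℝ) * ((2 * (n + δ)) * (n : ℝ) ^ 4) := by
      apply mul_le_mul_of_nonneg_left _ hC0p.le
      apply mul_le_mul_of_nonneg_right _ hn4.le
      linarith
    rw [e2, e1]
    nlinarith
  refine ⟨fun hQ => ?_, fun hQ => ?_⟩
  · obtain ⟨d', Q', hQ', hS'⟩ := hL hQ
    refine fin_main ?_ (by omega) (hLP n _ R δ' hn1 hδ'0 ?_ d' Q' hQ' hS') hNn (le_max_left _ _)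
    · exact mul_le_mul_of_nonneg_right hcc1 hsq0
    · refine le_trans ?_ hRc
      apply mul_le_mul_of_nonneg_right _ (by positivity)
      rw [hC0]; push_cast; linarith
  · obtain ⟨d', Q', hQ', hS'⟩ := hD hQ
    refine fin_main ?_ (by omega) (hSDP n _ R δ' hn2 hδ'0 ?_ d' Q' hQ' hS') hNn (le_max_left _ _)
    · exact mul_le_mul_of_nonneg_right hcc2 h110
    · refine le_trans ?_ hRc
      have : 0 ≤ (n + δ') * (n : ℝ) ^ 4 := by positivity
      nlinarith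

end Pool.Agent.Helper22.MI
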