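import Mathlib

set_option autoImplicit false

/-!
# Mixed-integer semidefinite programs for the planar Euclidean travelling salesman problem:
# the definitions in the final statement
-/

namespace Pool.Agent.Helper22.MIPub

/-- Euclidean distance of two integer points -/
noncomputable def dst (p q : ℤ × ℤ) : ℝ :=
  Real.sqrt (((p.1 - q.1 : ℤ) : ℝ) ^ 2 + ((p.2 - q.2 : ℤ) : ℝ) ^ 2)

/-- exact length of the closed tour `σ` through the points of the placement `P` -/
noncomputable def tourLen {n : ℕ} (P : Fin n → ℤ × ℤ) (σ : Equiv.Perm (Fin n)) : ℝ :=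
  ∑ i, dst (P (σ i)) (P (σ (finRotate n i)))

/-- all cities lie in the square `[0, R] × [0, R]` -/
def InSquare {n : ℕ} (R : ℕ) (P : Fin n → ℤ × ℤ) : Prop :=
  ∀ i, 0 ≤ (P i).1 ∧ (P i).1 ≤ R ∧ 0 ≤ (P i).2 ∧ (P i).2 ≤ R

/-- `Q` is a spectrahedron given by a linear matrix inequality of size `r` and any number of linear
equations -/
def IsSDP {d : ℕ} (Q : Set (Fin d → ℝ)) (r : ℕ) : Prop :=
  ∃ (B₀ : Matrix (Fin r) (Fin r) ℝ) (B : Fin d → Matrix (Fin r) (Fin r) ℝ) (s : ℕ)
    (E : Fin s → Fin d → ℝ) (e : Fin s → ℝ), B₀.IsHermitian ∧ (∀ j, (B j).IsHermitian) ∧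
    Q = {y | (B₀ + ∑ j, y j • B j).PosSemidef ∧ ∀ k, ∑ j, E k j * y j = e k}

/-- the points of `Q` at which the `k` affine functions `p i · y + p₀ i` take integer values -/
def MixInt {d k : ℕ} (Q : Set (Fin d → ℝ)) (p : Fin k → Fin d → ℝ) (p₀ : Fin k → ℝ) :
    Set (Fin d → ℝ) :=
  {y | y ∈ Q ∧ ∀ i, ∃ a : ℤ, ∑ j, p i j * y j + p₀ i = a}

/-- The set `M` of vectors solves, up to the additive error `δ`, the Euclidean travelling salesman
problem for `n` labelled cities in `{0, …, R}²`: every tour `σ` is represented by a point `x σ` of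
`M`, and every placement `P` of the cities has an affine objective whose value at every `x σ` is
the length of the tour `σ` up to `δ`, and whose value at every point of `M` is at least the length
of some tour minus `δ`. -/
def Solves {d : ℕ} (M : Set (Fin d → ℝ)) (n R : ℕ) (δ : ℝ) : Prop :=
  ∃ x : Equiv.Perm (Fin n) → Fin d → ℝ, (∀ σ, x σ ∈ M) ∧
    ∀ P : Fin n → ℤ × ℤ, Function.Injective P → InSquare R P →
      ∃ (c : Fin d → ℝ) (c₀ : ℝ),
        (∀ σ, |(∑ j, c j * x σ j + c₀) - tourLen P σ| ≤ δ) ∧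
        ∀ y ∈ M, ∃ σ, tourLen P σ - δ ≤ ∑ j, c j * y j + c₀

end Pool.Agent.Helper22.MIPub
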