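import Mathlib

set_option autoImplicit false

/-!
# Mixed-integer formulations: statements of the modules that need only Mathlib

Blueprint: /team-store/mi_blueprint.md
-/

namespace Pool.Agent.Helper22.MI

open Finset

/-- TOR: a finite subgroup of the torus that no nonzero character of size at most `m` annihilates
comes close to every point -/
def ST_TOR : Prop := ∀ (j D m : ℕ) (η : ℝ), 0 < D → (j : ℝ) < η * m →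
  ∀ (Γ : AddSubgroup (Fin j → ZMod D)) (t : Fin j → ℝ),
  (∀ h : Fin j → ℤ, h ≠ 0 → (∀ i, |h i| ≤ m) → ∃ γ ∈ Γ, ∑ i, (h i : ZMod D) * γ i ≠ 0) →
  ∃ γ ∈ Γ, ∑ i, (1 - Real.cos (2 * Real.pi * ((ZMod.val (γ i) : ℝ) / D - t i))) < η

/-- AUE: a basis with coordinates at most one -/
def ST_AUE : Prop := ∀ (ι : Type) [Fintype ι] (k : ℕ) (v : ι → Fin k → ℝ),
  ∃ (j : ℕ) (s : Fin j → ι), j ≤ k ∧ LinearIndependent ℝ (fun l => v (s l)) ∧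
    ∀ a, ∃ x : Fin j → ℝ, (∀ l, |x l| ≤ 1) ∧ ∀ i, v a i = ∑ l, x l * v (s l) i

/-- DEN: a common denominator of the coordinates of the integer points -/
def ST_DEN : Prop := ∀ (j k : ℕ) (w : Fin j → Fin k → ℤ),
  LinearIndependent ℝ (fun (l : Fin j) (i : Fin k) => (w l i : ℝ)) → ∃ D : ℕ, 0 < D ∧
    ∀ (z : Fin k → ℤ) (x : Fin j → ℝ), (∀ i, (z i : ℝ) = ∑ l, x l * w l i) →
      ∃ g : Fin j → ℤ, ∀ l, (D : ℝ) * x l = g l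

/-- ALT: either the integer points in the span of `w` are dense in the coordinates, or a small
integral functional separates them into few layers -/
def ST_ALT : Prop := ∀ (j k m : ℕ) (ρ : ℝ) (w : Fin j → Fin k → ℤ),
  LinearIndependent ℝ (fun (l : Fin j) (i : Fin k) => (w l i : ℝ)) → 0 < ρ →
  (j : ℝ) < 8 * ρ ^ 2 * m →
  (∀ t : Fin j → ℝ, ∃ (z : Fin k → ℤ) (x : Fin j → ℝ), (∀ i, (z i : ℝ) = ∑ l, x l * w l i) ∧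
    ∀ l, |x l - t l| < ρ) ∨
  ∃ h : Fin j → ℤ, h ≠ 0 ∧ (∀ l, |h l| ≤ m) ∧
    ∀ (z : Fin k → ℤ) (x : Fin j → ℝ), (∀ i, (z i : ℝ) = ∑ l, x l * w l i) →
      ∃ a : ℤ, ∑ l, (h l : ℝ) * x l = a

/-- every point of the affine span of the `z σ`, `σ ∈ T`, becomes an integer point after a push of
relative size `ε` towards some point of the convex hull of the `z σ`, `σ ∈ T` -/
def Good {ι : Type} {k : ℕ} (ε : ℝ) (z : ι → Fin k → ℤ) (T : Finset ι) : Prop :=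
  ∀ μ : ι → ℝ, ∑ σ ∈ T, μ σ = 1 → ∃ lam : ι → ℝ, (∀ σ ∈ T, 0 ≤ lam σ) ∧ ∑ σ ∈ T, lam σ = 1 ∧
    ∀ i, ∃ a : ℤ, (1 - ε) * (∑ σ ∈ T, μ σ * z σ i) + ε * (∑ σ ∈ T, lam σ * z σ i) = a

/-- STEP: a set of integer points is good or splits into few layers -/
def ST_STEP : Prop := ∀ (ι : Type) [Fintype ι] (k m : ℕ) (ε : ℝ) (z : ι → Fin k → ℤ)
  (T : Finset ι), T.Nonempty → 0 < ε → ε ≤ 1 → ((k : ℝ) + 1) ^ 5 ≤ 8 * ε ^ 2 * m →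
  Good ε z T ∨ ∃ (u : ι → ℤ) (f : Fin k → ℝ) (f₀ : ℝ), (∀ σ ∈ T, |u σ| ≤ k * m) ∧
    (∀ σ ∈ T, (u σ : ℝ) = ∑ i, f i * z σ i + f₀) ∧ ∃ σ ∈ T, ∃ τ ∈ T, u σ ≠ u τ

/-- REC: a cover by few good sets -/
def ST_REC : Prop := ∀ (ι : Type) [Fintype ι] (k m : ℕ) (ε : ℝ) (z : ι → Fin k → ℤ),
  0 < ε → ε ≤ 1 → ((k : ℝ) + 1) ^ 5 ≤ 8 * ε ^ 2 * m →
  ∃ F : Finset (Finset ι), F.card ≤ (2 * k * m + 1) ^ k ∧ (∀ T ∈ F, T.Nonempty ∧ Good ε z T) ∧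
    ∀ σ : ι, ∃ T ∈ F, σ ∈ T

/-- EQS: an affine span is the solution set of finitely many linear equations -/
def ST_EQS : Prop := ∀ (ι : Type) [Fintype ι] (k : ℕ) (v : ι → Fin k → ℝ) (T : Finset ι),
  T.Nonempty → ∃ (s : ℕ) (G : Fin s → Fin k → ℝ) (g : Fin s → ℝ), ∀ w : Fin k → ℝ,
    (∃ μ : ι → ℝ, ∑ σ ∈ T, μ σ = 1 ∧ ∀ i, w i = ∑ σ ∈ T, μ σ * v σ i) ↔
      ∀ a, ∑ i, G a i * w i = g a

/-- the points of `Q` at which the affine functions `p i · y + p₀ i` take integer values -/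
def MixInt {d k : ℕ} (Q : Set (Fin d → ℝ)) (p : Fin k → Fin d → ℝ) (p₀ : Fin k → ℝ) :
    Set (Fin d → ℝ) :=
  {y | y ∈ Q ∧ ∀ i, ∃ a : ℤ, ∑ j, p i j * y j + p₀ i = a}

/-- the points of `Q` whose images lie in the affine span of the `z σ`, `σ ∈ T` -/
def Piece {ι : Type} {d k : ℕ} (Q : Set (Fin d → ℝ)) (p : Fin k → Fin d → ℝ) (p₀ : Fin k → ℝ)
    (z : ι → Fin k → ℤ) (T : Finset ι) : Set (Fin d → ℝ) :=
  {y | y ∈ Q ∧ ∃ μ : ι → ℝ, ∑ σ ∈ T, μ σ = 1 ∧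
    ∀ i, ∑ j, p i j * y j + p₀ i = ∑ σ ∈ T, μ σ * z σ i}

/-- PIE: a lower bound for the objective at the mixed-integer points gives one on a good piece -/
def ST_PIE : Prop := ∀ (ι : Type) [Fintype ι] (d k : ℕ) (Q : Set (Fin d → ℝ))
  (p : Fin k → Fin d → ℝ) (p₀ : Fin k → ℝ) (x : ι → Fin d → ℝ) (z : ι → Fin k → ℤ)
  (ε δ L : ℝ) (len : ι → ℝ) (c : Fin d → ℝ) (c₀ : ℝ) (T : Finset ι),
  Convex ℝ Q → (∀ σ, x σ ∈ Q) → (∀ σ i, ∑ j, p i j * x σ j + p₀ i = z σ i) →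
  0 < ε → ε ≤ 1 / 4 → 0 ≤ δ → (∀ σ, 0 ≤ len σ ∧ len σ ≤ L) → Good ε z T →
  (∀ σ, |(∑ j, c j * x σ j + c₀) - len σ| ≤ δ) →
  (∀ y ∈ MixInt Q p p₀, ∃ σ, len σ - δ ≤ ∑ j, c j * y j + c₀) →
  ∀ y ∈ Piece Q p p₀ z T, ∃ σ, len σ - (2 * δ + 2 * ε * L) ≤ ∑ j, c j * y j + c₀

end Pool.Agent.Helper22.MI
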