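import Pool.Agent.Helper68.SDP.Solve
import Pool.Agent.Helper22.MI.Stmts0

set_option autoImplicit false

/-!
# Mixed-integer formulations: statements of the modules about linear and semidefinite programs
-/

namespace Pool.Agent.Helper22.MI

open Finset Pool.Agent.Helper68.SDP Pool.Agent.Helper68.LP

/-- CVX: polyhedra and spectrahedra are convex, and stay polyhedra and spectrahedra of the same
size after intersection with the preimage of an affine span -/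
def ST_CVX : Prop :=
  (∀ (d r : ℕ) (Q : Set (Fin d → ℝ)), IsLP Q r → Convex ℝ Q) ∧
  (∀ (d r : ℕ) (Q : Set (Fin d → ℝ)), IsSDP Q r → Convex ℝ Q) ∧
  ∀ (ι : Type) [Fintype ι] (d k r : ℕ) (Q : Set (Fin d → ℝ)) (p : Fin k → Fin d → ℝ)
    (p₀ : Fin k → ℝ) (z : ι → Fin k → ℤ) (T : Finset ι), T.Nonempty →
    (IsLP Q r → IsLP (Piece Q p p₀ z T) r) ∧ (IsSDP Q r → IsSDP (Piece Q p p₀ z T) r)

/-- UNL: a union of `N` polyhedra -/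
def ST_UNL : Prop := ∀ (d N n R r : ℕ) (δ : ℝ) (Q : Fin N → Set (Fin d → ℝ)),
  (∀ i, IsLP (Q i) r) → (∀ i, (Q i).Nonempty) →
  ∀ (x : Equiv.Perm (Fin n) → Fin d → ℝ), (∀ σ, ∃ i, x σ ∈ Q i) →
  (∀ P : Fin n → ℤ × ℤ, Function.Injective P → InSquare R P →
    ∃ (c : Fin d → ℝ) (c₀ : ℝ), (∀ σ, |(∑ j, c j * x σ j + c₀) - tlen P σ| ≤ δ) ∧
      ∀ i, ∀ y ∈ Q i, ∃ σ, tlen P σ - δ ≤ ∑ j, c j * y j + c₀) →
  ∃ (d' : ℕ) (Q' : Set (Fin d' → ℝ)), IsLP Q' (N * (r + 1)) ∧ Solves Q' n R δ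

/-- UNS: a union of `N` spectrahedra -/
def ST_UNS : Prop := ∀ (d N n R r : ℕ) (δ : ℝ) (Q : Fin N → Set (Fin d → ℝ)),
  (∀ i, IsSDP (Q i) r) → (∀ i, (Q i).Nonempty) →
  ∀ (x : Equiv.Perm (Fin n) → Fin d → ℝ), (∀ σ, ∃ i, x σ ∈ Q i) →
  (∀ P : Fin n → ℤ × ℤ, Function.Injective P → InSquare R P →
    ∃ (c : Fin d → ℝ) (c₀ : ℝ), (∀ σ, |(∑ j, c j * x σ j + c₀) - tlen P σ| ≤ δ) ∧
      ∀ i, ∀ y ∈ Q i, ∃ σ, tlen P σ - δ ≤ ∑ j, c j * y j + c₀) →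
  ∃ (d' : ℕ) (Q' : Set (Fin d' → ℝ)), IsSDP Q' (N * (r + 1)) ∧ Solves Q' n R δ

/-- LEN: trivial bounds for the length of a tour -/
def ST_LEN : Prop := ∀ (n R : ℕ) (P : Fin n → ℤ × ℤ) (σ : Equiv.Perm (Fin n)), InSquare R P →
  0 ≤ tlen P σ ∧ tlen P σ ≤ 2 * n * R

/-- RED: a mixed-integer formulation with `k` integral affine functions gives a formulation without
integer variables -/
def ST_RED : Prop := ∀ (n R r k d m : ℕ) (δ ε : ℝ) (Q : Set (Fin d → ℝ)) (p : Fin k → Fin d → ℝ)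
  (p₀ : Fin k → ℝ), 0 ≤ δ → 0 < ε → ε ≤ 1 / 4 → ((k : ℝ) + 1) ^ 5 ≤ 8 * ε ^ 2 * m →
  Solves (MixInt Q p p₀) n R δ → ∃ N : ℕ, N ≤ (2 * k * m + 1) ^ k ∧
    (IsLP Q r → ∃ (d' : ℕ) (Q' : Set (Fin d' → ℝ)), IsLP Q' (N * (r + 1)) ∧
      Solves Q' n R (2 * δ + 4 * ε * n * R)) ∧
    (IsSDP Q r → ∃ (d' : ℕ) (Q' : Set (Fin d' → ℝ)), IsSDP Q' (N * (r + 1)) ∧
      Solves Q' n R (2 * δ + 4 * ε * n * R))

/-- the final theorem -/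
def ST_FIN : Prop := ∃ (c : ℝ) (C n₀ : ℕ), 0 < c ∧ ∀ (n r k R : ℕ) (δ : ℝ), n₀ ≤ n → 0 ≤ δ →
    (C : ℝ) * ((n + δ) * (n : ℝ) ^ 4) ≤ R →
    ∀ (d : ℕ) (Q : Set (Fin d → ℝ)) (p : Fin k → Fin d → ℝ) (p₀ : Fin k → ℝ),
    Solves (MixInt Q p p₀) n R δ →
      (IsLP Q r → (2 : ℝ) ^ (c * √(n : ℝ)) ≤ (r + 1) * (n : ℝ) ^ (C * k)) ∧
      (IsSDP Q r → (2 : ℝ) ^ (c * (n : ℝ) ^ (2 / 11 : ℝ)) ≤ (r + 1) * (n : ℝ) ^ (C * k))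

end Pool.Agent.Helper22.MI
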